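import Mathlib
import Pool.Agent.W223.VD.Points
import Pool.Agent.W469.CV.REL
import Pool.Agent.W469.CV.MH
import Pool.Agent.W223.AC.Key
import Pool.Agent.W976.AC.EX
import Pool.Agent.W460.AC.NORM
import Pool.Agent.W597.AC.LOC
import Pool.Agent.W193.AC.FINQ
import Pool.Agent.W398.AC.DIM
import Pool.Agent.W803.AC.SUMN
import Pool.Agent.W131.AC.GROW
import Pool.Agent.W395.AC.LOCM
import Pool.Agent.W989.AC.MULT
import Pool.Agent.W410.AC.HTG

/-!
# The truncated Vojta inequality with discriminant term on all curves over number fields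

Let `X` be a smooth projective curve over a number field, `D` a reduced effective divisor on `X`
and `t : X → ℙ¹` a finite map of degree `N` over `ℚ` which is unramified outside the fibres over
finitely many rational points `a_1, …, a_q` and maps the points of `D` to the `a_j` (such a map
exists by Belyi's theorem; we may suppose that `a_j ≠ ∞`). Let `A` be the ring of functions on
`X` with poles only over `∞`: a Dedekind domain, finite over `ℚ[t]`. If `E_j` is the ideal of the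
points over `a_j` which are not points of `D`, then
`(deg (K_X + D)) / N = q - 2 - (∑_j dim (A / E_j)) / N`.

The points `P` of `X` (not over `∞`) over a number field `L` are the homomorphisms `φ : A → L`.
We prove that for `κ > 2`, outside a sparse set of values `x = t(P)` of degree `r` over `ℚ`,
`(q - κ - (∑_j dim (A / E_j)) / N) h(x) ≤ N_S^{(1)}(D, P) / [L : ℚ] + d(L) + C₀`
for all points `P` over `x` and all number fields `L` over which `P` is defined.
-/

set_option autoImplicit false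

namespace Pool.Agent.Results.MP_44a246_nt.AllCurves

open Polynomial IntermediateField IsDedekindDomain NumberField

/-- The absolute logarithmic height `(log M(f)) / deg f` of the roots of an irreducible integral
polynomial `f` (`M` is the Mahler measure). -/
noncomputable def height (f : ℤ[X]) : ℝ :=
  Real.log (f.map (Int.castRingHom ℂ)).mahlerMeasure / f.natDegree

/-- the function `t` -/
noncomputable def coord (A : Type) [CommRing A] [Algebra ℚ[X] A] : A := algebraMap ℚ[X] A X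

open Classical in
/-- The truncated counting function `N_S^{(1)}(D, P) / [L : ℚ]` of the divisor `D` whose part `D_j`
over `a_j` has the equations `y_{j 1} = ⋯ = y_{j u_j} = 0`: the sum of `log N(v) / [L : ℚ]` over
the primes `v` of `L`, not above primes of `S`, at which `P = φ` reduces to a point of `D`, that
is, `|t(P)|_v ≤ 1` and for some `j` one has `|t(P) - a_j|_v < 1` and `|y_{j i}(P)|_v < 1` for all
`i`. -/
noncomputable def truncated {A : Type} [CommRing A] [Algebra ℚ[X] A] {q : ℕ} (S : Finset ℕ)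
    (a : Fin q → ℚ) (u : Fin q → ℕ) (y : ∀ j, Fin (u j) → A)
    (L : IntermediateField ℚ ℂ) [NumberField L] (φ : A →+* L) : ℝ :=
  (∑ᶠ v : HeightOneSpectrum (𝓞 L),
      if (∀ p ∈ S, (p : 𝓞 L) ∉ v.asIdeal) ∧ v.valuation L (φ (coord A)) ≤ 1 ∧
        ∃ j, v.valuation L (φ (coord A) - (a j : L)) < 1 ∧ ∀ i, v.valuation L (φ (y j i)) < 1
      then Real.log (Ideal.absNorm v.asIdeal) else 0) / Module.finrank ℚ L

/-- The logarithmic discriminant `log |disc L| / [L : ℚ]`. -/
noncomputable def logDisc (L : IntermediateField ℚ ℂ) [NumberField L] : ℝ :=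
  Real.log |(NumberField.discr L : ℝ)| / Module.finrank ℚ L

/-- `q - (∑_j dim (A / E_j)) / N`, where `N` is the rank of `A` over `ℚ[t]`: the number
`2 + deg (K_X + D) / N`. -/
noncomputable def degree {A : Type} [CommRing A] [Algebra ℚ A] [Algebra ℚ[X] A] {q : ℕ}
    (E : Fin q → Ideal A) : ℝ :=
  q - (∑ j, (Module.finrank ℚ (A ⧸ E j) : ℝ)) / Module.finrank ℚ[X] A

/-- The algebraic numbers `x` of degree `r` and height at most `log B` over which there is a point
`P = φ` of the curve, defined over a number field `L`, such that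
`(degree - κ) h(x) ≤ N_S^{(1)}(D, P) / [L : ℚ] + d(L) + C₀` fails. -/
def exceptional {A : Type} [CommRing A] [Algebra ℚ A] [Algebra ℚ[X] A] {q : ℕ} (S : Finset ℕ)
    (a : Fin q → ℚ) (u : Fin q → ℕ) (y : ∀ j, Fin (u j) → A) (E : Fin q → Ideal A)
    (r : ℕ) (κ C₀ B : ℝ) : Set ℂ :=
  {x | ∃ f : ℤ[X], Irreducible f ∧ f.natDegree = r ∧ aeval x f = 0 ∧ height f ≤ Real.log B ∧
    ∃ (L : IntermediateField ℚ ℂ) (_ : NumberField L) (φ : A →+* L), (φ (coord A) : ℂ) = x ∧
      truncated S a u y L φ + logDisc L + C₀ < (degree E - κ) * height f}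

/-- The number of number fields of degree `r` and discriminant at most `Δ` is
`O(Δ ^ (alpha r c η))`: here `alpha r c η` is the smaller of
`(r - 1) (r + 2) / (4 ⌈r / 2⌉)` and `c r ^ η`. -/
noncomputable def alpha (r : ℕ) (c η : ℝ) : ℝ :=
  min (((r : ℝ) - 1) * (r + 2) / (4 * ((r + 1) / 2 : ℕ))) (c * (r : ℝ) ^ η)

/-- The exponent of the theorem: with `m = min q (r + 1)`, the smaller of `α (q - κ)` and
`((q α - 2) (r + 1 - m) + m α (q - κ)) / (q α + m - 2)`. -/
noncomputable def exponent (α : ℝ) (r q : ℕ) (κ : ℝ) : ℝ :=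
  min (α * (q - κ)) (((q * α - 2) * (r + 1 - (min q (r + 1) : ℕ)) +
    (min q (r + 1) : ℕ) * α * (q - κ)) / (q * α + (min q (r + 1) : ℕ) - 2))

lemma one_le_alpha {r : ℕ} (hr : 2 ≤ r) {c η : ℝ} (hc : 1 ≤ c) (hη : 0 < η) :
    1 ≤ alpha r c η := by
  have hr1 : (1 : ℝ) ≤ r := by exact_mod_cast (show 1 ≤ r by omega)
  have h1 : 1 ≤ c * (r : ℝ) ^ η :=
    one_le_mul_of_one_le_of_one_le hc (Real.one_le_rpow hr1 hη.le)
  refine le_min ?_ h1
  have h3 : 0 < 4 * (((r + 1) / 2 : ℕ) : ℝ) := by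
    have : 1 ≤ (r + 1) / 2 := by omega
    have h4 : (1 : ℝ) ≤ ((r + 1) / 2 : ℕ) := by exact_mod_cast this
    linarith
  rw [one_le_div h3]
  have h5 : 4 * ((r + 1) / 2) + 2 ≤ r * r + r := by
    rcases Nat.lt_or_ge r 3 with h6 | h6
    · have : r = 2 := by omega
      subst this
      norm_num
    · have h7 : 2 * ((r + 1) / 2) ≤ r + 1 := Nat.mul_div_le _ _
      nlinarith
  have h6 : (4 : ℝ) * ((r + 1) / 2 : ℕ) + 2 ≤ r * r + r := by exact_mod_cast h5
  nlinarith

lemma exponent_aux {α : ℝ} (hα : 1 ≤ α) {r q : ℕ} (hr : 2 ≤ r) (hq : 3 ≤ q) :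
    (1 : ℝ) ≤ (min q (r + 1) : ℕ) ∧ ((min q (r + 1) : ℕ) : ℝ) ≤ r + 1 ∧
      ((min q (r + 1) : ℕ) : ℝ) ≤ q * α + (min q (r + 1) : ℕ) - 2 ∧ 0 < (q : ℝ) * α - 2 := by
  have h1 : 1 ≤ min q (r + 1) := by omega
  have h2 : min q (r + 1) ≤ r + 1 := min_le_right _ _
  have h3 : (3 : ℝ) ≤ q := by exact_mod_cast hq
  have h4 : (1 : ℝ) ≤ (min q (r + 1) : ℕ) := by exact_mod_cast h1
  have h5 : ((min q (r + 1) : ℕ) : ℝ) ≤ r + 1 := by exact_mod_cast h2
  refine ⟨h4, h5, by nlinarith, by nlinarith⟩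

lemma exponent_sub {α : ℝ} (hα : 1 ≤ α) {r q : ℕ} (hr : 2 ≤ r) (hq : 3 ≤ q) (κ s : ℝ)
    (hs : 0 ≤ s) : exponent α r q (κ - s) ≤ exponent α r q κ + α * s := by
  obtain ⟨h1, h2, h3, h4⟩ := exponent_aux hα hr hq
  unfold exponent
  set m : ℝ := ((min q (r + 1) : ℕ) : ℝ) with hm
  have hden : 0 < (q : ℝ) * α + m - 2 := by linarith
  rw [← min_add_add_right]
  refine min_le_min (by linarith) ?_
  rw [div_add' _ _ _ hden.ne', div_le_div_iff_of_pos_right hden]
  have h5 : m * α * s ≤ (q * α + m - 2) * (α * s) := by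
    rw [mul_assoc]
    exact mul_le_mul_of_nonneg_right h3 (by positivity)
  nlinarith

lemma exponent_nonneg {α : ℝ} (hα : 1 ≤ α) {r q : ℕ} (hr : 2 ≤ r) (hq : 3 ≤ q) {κ : ℝ}
    (hκ : κ ≤ q) : 0 ≤ exponent α r q κ := by
  obtain ⟨h1, h2, h3, h4⟩ := exponent_aux hα hr hq
  unfold exponent
  have h5 : 0 ≤ (q : ℝ) - κ := by linarith
  refine le_min (mul_nonneg (by linarith) h5) (div_nonneg ?_ (by linarith))
  have h6 := mul_nonneg h4.le (sub_nonneg.mpr h2)
  have h7 := mul_nonneg (mul_nonneg (zero_le_one.trans h1) (zero_le_one.trans hα)) h5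
  linarith

open Pool.Agent.W223.AC in
theorem partNB : StmtNB :=
  nb (Pool.Agent.W976.AC.EX.t Pool.Agent.W398.AC.DIM.t Pool.Agent.W193.AC.FINQ.t
      Pool.Agent.W989.AC.MULT.t)
    (Pool.Agent.W395.AC.LOCM.t Pool.Agent.W989.AC.MULT.t Pool.Agent.W597.AC.t)
    (Pool.Agent.W410.AC.t Pool.Agent.W131.AC.t) Pool.Agent.W803.AC.t Pool.Agent.W460.AC.t

/-- **The truncated Vojta inequality with discriminant term on all curves.** Let `η > 0`. There is
`c ≥ 1` such that the following holds. Let `A` be a Dedekind domain, finite over `ℚ[t]` and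
containing it (the ring of functions of a smooth affine curve which is finite over the `t`-line),
of rank `N`, let `r ≥ 2`, let `a_1, …, a_q` be `q ≥ 3` distinct rational numbers, let `D_j` be the
closed subset `y_{j 1} = ⋯ = y_{j u_j} = 0` and `E_j ≠ 0` an ideal of `A` such that `D_j` and the
zeros of `E_j` together contain the fibre over `a_j`. Let `S` be a finite set of primes and let
`κ ≤ q`, `C₀` and `δ > 0` be real. Then for all `B ≥ 1`, for all but
`C * B ^ (r * exponent (alpha r c η) r q κ + δ)` algebraic numbers `x` of degree `r` and height at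
most `log B`, all points `P` of the curve with `t(P) = x` and all number fields `L` over which
`P` is defined satisfy
`(q - κ - (∑_j dim (A / E_j)) / N) h(x) ≤ N_S^{(1)}(D, P) / [L : ℚ] + d(L) + C₀`. -/
theorem result : ∀ η : ℝ, 0 < η → ∃ c : ℝ, 1 ≤ c ∧
    ∀ (A : Type) [CommRing A] [IsDedekindDomain A] [Algebra ℚ A] [Algebra ℚ[X] A]
      [IsScalarTower ℚ ℚ[X] A] [Module.Finite ℚ[X] A] [FaithfulSMul ℚ[X] A]
      (r q : ℕ), 2 ≤ r → 3 ≤ q → ∀ a : Fin q → ℚ, Function.Injective a →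
    ∀ (u : Fin q → ℕ) (y : ∀ j, Fin (u j) → A) (E : Fin q → Ideal A), (∀ j, E j ≠ ⊥) →
    (∀ j i, ∀ e ∈ E j,
      y j i * e ∈ (Ideal.span {coord A - algebraMap ℚ[X] A (C (a j))}).radical) →
    ∀ S : Finset ℕ, (∀ p ∈ S, p.Prime) → ∀ κ C₀ δ : ℝ, κ ≤ q → 0 < δ →
    ∃ C : ℝ, ∀ B : ℝ, 1 ≤ B → (exceptional S a u y E r κ C₀ B).Finite ∧
      ((exceptional S a u y E r κ C₀ B).ncard : ℝ) ≤
        C * B ^ ((r : ℝ) * exponent (alpha r c η) r q κ + δ) := by
  classical
  intro η hη
  obtain ⟨c, hc, hα⟩ := Pool.Agent.W223.VD.Points.result η hη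
  refine ⟨c, hc, ?_⟩
  intro A _ _ _ _ _ _ _ r q hr hq a ha u y E hE hyE S hS κ C₀ δ hκ hδ
  have hα1 := one_le_alpha hr hc hη
  set α := alpha r c η with hαd
  have hr0 : (0 : ℝ) < r := by exact_mod_cast (show 0 < r by omega)
  have hα0 : 0 < α := by linarith
  obtain ⟨ε, hεd⟩ : ∃ ε, ε = δ / (2 * (r * α)) := ⟨_, rfl⟩
  have hrα : 0 < 2 * (r * α) := by positivity
  have hε : 0 < ε := by rw [hεd]; positivity
  obtain ⟨M, Ck, G, hM, hCk, hG, hkey⟩ := Pool.Agent.W223.AC.key partNB
    Pool.Agent.W460.AC.t Pool.Agent.W989.AC.MULT.t Pool.Agent.W597.AC.t A (by omega : 1 ≤ q)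
    a u y E hE hyE ε hε
  set P : Fin q → ℤ × ℤ := fun j => Pool.Agent.W223.AC.pt (a j) with hPd
  have hP : ∀ j, IsCoprime (P j).1 (P j).2 := fun j => Pool.Agent.W223.AC.pt_coprime (a j)
  have hPP : ∀ i j, i ≠ j → (P i).1 * (P j).2 ≠ (P j).1 * (P i).2 := fun i j hij =>
    Pool.Agent.W223.AC.pt_inj fun h => hij (ha h)
  have hPZ : ∀ j, P j ≠ 0 := by
    intro j h
    have h1 := hP j
    rw [h] at h1
    obtain ⟨a, b, hab⟩ := h1
    simp at hab
  set S' := S ∪ M.primeFactors with hS'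
  have hS'p : ∀ p ∈ S', p.Prime := by
    intro p hp
    rcases Finset.mem_union.mp hp with h | h
    · exact hS p h
    · exact Nat.prime_of_mem_primeFactors h
  set κ₁ := κ - ε with hκ₁
  set C₁ := C₀ - Ck with hC₁
  obtain ⟨C, hB⟩ := hα r q hr hq P hP hPP S' hS'p κ₁ C₁ (δ / 2) (by linarith) (by linarith)
  refine ⟨max C 0 + (G.rootSet ℂ).ncard, fun B hB1 => ?_⟩
  obtain ⟨h1, h2⟩ := hB B hB1
  have hfinG : (G.rootSet ℂ).Finite := Polynomial.rootSet_finite G ℂ
  have hsub : exceptional S a u y E r κ C₀ B ⊆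
      Pool.Agent.W223.VD.Points.exceptional S' P r κ₁ C₁ B ∪
        G.rootSet ℂ := by
    rintro x ⟨f, hf, hd, hx, hh, L, hLN, φ, hφ, hv⟩
    by_cases hGx : aeval x G = 0
    · exact Or.inr ((Polynomial.mem_rootSet_of_ne hG).mpr hGx)
    refine Or.inl ⟨f, hf, hd, hx, hh, ?_⟩
    by_contra hcon
    rw [not_lt] at hcon
    have hxL : x ∈ L := by
      rw [← hφ]
      exact (φ (coord A)).2
    obtain ⟨hK, hfr⟩ := Pool.Agent.W223.VD.field_data (by omega) hf hd hx
    have hle : ℚ⟮x⟯ ≤ L := IntermediateField.adjoin_simple_le_iff.mpr hxL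
    let : Algebra ℚ⟮x⟯ L := (IntermediateField.inclusion hle).toRingHom.toAlgebra
    have hgen : algebraMap ℚ⟮x⟯ L (AdjoinSimple.gen ℚ x) = φ (coord A) := Subtype.ext hφ.symm
    have hxf : aeval (AdjoinSimple.gen ℚ x) f = 0 := by
      have h9 : (aeval (AdjoinSimple.gen ℚ x) f : ℚ⟮x⟯).1 = 0 := by
        have := aeval_algebraMap_apply ℂ (AdjoinSimple.gen ℚ x) f
        have h10 : algebraMap ℚ⟮x⟯ ℂ (AdjoinSimple.gen ℚ x) = x := rfl
        rw [h10, hx] at this
        exact this.symm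
      exact Subtype.ext h9
    set ξ : L := φ (coord A) with hξ
    have hxfL : aeval ξ f = 0 := by
      rw [← hgen, aeval_algebraMap_apply, hxf, map_zero]
    have hlin : ∀ j, Pool.Agent.W223.CV.lin (P j) (AdjoinSimple.gen ℚ x) ≠ 0 := fun j =>
      Pool.Agent.W598.VD.TR.L_ne_zero _ f (P j) hxf
        (Pool.Agent.W223.VD.value_ne_zero hr hf hd (P j) (hP j))
    have hGξ : aeval ξ G ≠ 0 := by
      intro h9
      apply hGx
      have h10 := aeval_algebraMap_apply ℂ ξ G
      have h11 : algebraMap L ℂ ξ = x := hφ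
      rw [h11] at h10
      rw [h10, h9, map_zero]
    have hne : ∀ j, ξ ≠ (a j : L) := by
      intro j h9
      have h10 : Pool.Agent.W223.CV.lin (P j) ξ = 0 := by
        unfold Pool.Agent.W223.CV.lin
        rw [h9]
        have h11 : ((a j : ℚ) : L) = (((a j).num : ℤ) : L) / (((a j).den : ℤ) : L) := by
          have := Rat.cast_def (K := L) (a j)
          push_cast
          exact this
        have h12 : (((a j).den : ℤ) : L) ≠ 0 := by exact_mod_cast (a j).den_nz
        show (((a j).num : ℤ) : L) - ((a j : ℚ) : L) * (((a j).den : ℤ) : L) = 0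
        rw [h11, div_mul_cancel₀ _ h12, sub_self]
      have h13 := Pool.Agent.W598.VD.TR.L_ne_zero ξ f (P j) hxfL
        (Pool.Agent.W223.VD.value_ne_zero hr hf hd (P j) (hP j))
      exact h13 h10
    -- the inequality over `ℚ(x)`
    have e1 : Pool.Agent.W223.VD.Points.truncated S' P x =
        Pool.Agent.W223.VD.cnt S' P (AdjoinSimple.gen ℚ x) / Module.finrank ℚ ℚ⟮x⟯ := by
      unfold Pool.Agent.W223.VD.Points.truncated
      rw [dif_pos hK]
      rfl
    have e2 : Pool.Agent.W223.VD.Points.logDisc x =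
        Real.log |(discr ℚ⟮x⟯ : ℝ)| / Module.finrank ℚ ℚ⟮x⟯ := by
      unfold Pool.Agent.W223.VD.Points.logDisc
      rw [dif_pos hK]
    rw [e1, e2] at hcon
    -- base change to `L`
    have hrel := Pool.Agent.W469.CV.REL.t ℚ⟮x⟯ L q S' P (AdjoinSimple.gen ℚ x) hlin
    rw [hgen] at hrel
    have hkpos : (0 : ℝ) < Module.finrank ℚ ℚ⟮x⟯ := by exact_mod_cast Module.finrank_pos
    have hLpos : (0 : ℝ) < Module.finrank ℚ L := by exact_mod_cast Module.finrank_pos
    have htow : (Module.finrank ℚ L : ℝ) =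
        Module.finrank ℚ ℚ⟮x⟯ * Module.finrank ℚ⟮x⟯ L := by
      exact_mod_cast (Module.finrank_mul_finrank ℚ ℚ⟮x⟯ L).symm
    have h4 : Pool.Agent.W223.VD.cnt S' P (AdjoinSimple.gen ℚ x) / Module.finrank ℚ ℚ⟮x⟯ +
        Real.log |(discr ℚ⟮x⟯ : ℝ)| / Module.finrank ℚ ℚ⟮x⟯ ≤
        Pool.Agent.W223.VD.cnt S' P ξ / Module.finrank ℚ L +
          Real.log |(discr L : ℝ)| / Module.finrank ℚ L := by
      rw [← add_div, ← add_div, div_le_div_iff₀ hkpos hLpos, htow]
      have : (Pool.Agent.W223.VD.cnt S' P (AdjoinSimple.gen ℚ x) +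
          Real.log |(discr ℚ⟮x⟯ : ℝ)|) *
          (Module.finrank ℚ ℚ⟮x⟯ * Module.finrank ℚ⟮x⟯ L) =
          (Module.finrank ℚ⟮x⟯ L * (Real.log |(discr ℚ⟮x⟯ : ℝ)| +
            Pool.Agent.W223.VD.cnt S' P (AdjoinSimple.gen ℚ x))) * Module.finrank ℚ ℚ⟮x⟯ := by
        ring
      rw [this]
      refine mul_le_mul_of_nonneg_right ?_ hkpos.le
      linarith
    -- the counting function of the fibres
    have h6 := Pool.Agent.W469.CV.MH.t L ξ f hf (by omega) hxfL
    have e4 : height f = Real.log (Pool.Agent.H813R3.Voj.mahler f) / f.natDegree := rfl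
    have e5 : Pool.Agent.W223.VD.Points.height f = height f := rfl
    rw [← e4] at h6
    rw [e5] at hcon
    set ν : ℝ := (∑ j, (Module.finrank ℚ (A ⧸ E j) : ℝ)) / Module.finrank ℚ[X] A with hν
    have hν0 : 0 ≤ ν + ε := by positivity
    have h5 : Pool.Agent.W223.VD.cnt S' P ξ ≤ Pool.Agent.W223.CV.cc S
        (fun v : HeightOneSpectrum (𝓞 L) => v.valuation L ξ ≤ 1 ∧
          ∃ j, v.valuation L (ξ - (a j : L)) < 1 ∧ ∀ i, v.valuation L (φ (y j i)) < 1) +
        (ν + ε) * Real.log (Height.mulHeight₁ ξ) + Module.finrank ℚ L * Ck :=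
      hkey S L φ hGξ hne
    have e6 : truncated S a u y L φ = Pool.Agent.W223.CV.cc S
        (fun v : HeightOneSpectrum (𝓞 L) => v.valuation L ξ ≤ 1 ∧
          ∃ j, v.valuation L (ξ - (a j : L)) < 1 ∧ ∀ i, v.valuation L (φ (y j i)) < 1) /
        Module.finrank ℚ L := by
      unfold truncated
      refine congrArg (fun t : ℝ => t / Module.finrank ℚ L) ?_
      unfold Pool.Agent.W223.CV.cc
      refine finsum_congr fun v => ?_
      by_cases h : (∀ p ∈ S, (p : 𝓞 L) ∉ v.asIdeal) ∧ v.valuation L ξ ≤ 1 ∧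
          ∃ j, v.valuation L (ξ - (a j : L)) < 1 ∧ ∀ i, v.valuation L (φ (y j i)) < 1
      · rw [Pool.Agent.W223.CV.ct_pos h]
        exact if_pos h
      · rw [Pool.Agent.W223.CV.ct_neg h]
        exact if_neg h
    have h7 : Pool.Agent.W223.VD.cnt S' P ξ / Module.finrank ℚ L ≤
        truncated S a u y L φ + (ν + ε) * height f + Ck := by
      rw [e6, div_le_iff₀ hLpos, add_mul, add_mul, div_mul_cancel₀ _ hLpos.ne']
      have h8 := mul_le_mul_of_nonneg_left h6 hν0
      have h9 : (ν + ε) * (Module.finrank ℚ L * height f) =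
          (ν + ε) * height f * Module.finrank ℚ L := by ring
      rw [h9] at h8
      have h10 : (Module.finrank ℚ L : ℝ) * Ck = Ck * Module.finrank ℚ L := mul_comm _ _
      rw [h10] at h5
      exact h5.trans (by linarith)
    have e7 : logDisc L = Real.log |(discr L : ℝ)| / Module.finrank ℚ L := rfl
    have e8 : degree E = q - ν := rfl
    rw [e7, e8] at hv
    have h11 : ((q : ℝ) - κ₁) * height f = (q - ν - κ) * height f + (ν + ε) * height f := by
      rw [hκ₁]; ring
    rw [h11] at hcon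
    rw [hC₁] at hcon
    linarith
  refine ⟨(h1.union hfinG).subset hsub, ?_⟩
  have h3 : ((exceptional S a u y E r κ C₀ B).ncard : ℝ) ≤
      ((Pool.Agent.W223.VD.Points.exceptional S' P r κ₁ C₁ B).ncard :
        ℝ) + (G.rootSet ℂ).ncard := by
    exact_mod_cast (Set.ncard_le_ncard hsub (h1.union hfinG)).trans (Set.ncard_union_le _ _)
  have he0 := exponent_nonneg hα1 hr hq hκ
  have hexp : (r : ℝ) * Pool.Agent.W223.VD.Points.exponent
      (Pool.Agent.W223.VD.Points.alpha r c η) r q κ₁ + δ / 2 ≤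
      (r : ℝ) * exponent α r q κ + δ := by
    have h4 := exponent_sub hα1 hr hq κ ε hε.le
    have h5 := mul_le_mul_of_nonneg_left h4 hr0.le
    have h6 : (r : ℝ) * (α * ε) = δ / 2 := by
      rw [hεd]
      field_simp
    have e1 : Pool.Agent.W223.VD.Points.exponent
      (Pool.Agent.W223.VD.Points.alpha r c η) r q κ₁ =
        exponent α r q (κ - ε) := rfl
    rw [e1]
    rw [mul_add, h6] at h5
    linarith
  have hpos : 0 ≤ (r : ℝ) * exponent α r q κ + δ := by
    have := mul_nonneg hr0.le he0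
    linarith
  have hB2 : (1 : ℝ) ≤ B ^ ((r : ℝ) * exponent α r q κ + δ) := Real.one_le_rpow hB1 hpos
  have hB3 := Real.rpow_le_rpow_of_exponent_le hB1 hexp
  have h8 : (C : ℝ) * B ^ ((r : ℝ) * Pool.Agent.W223.VD.Points.exponent
      (Pool.Agent.W223.VD.Points.alpha r c η) r q κ₁ + δ / 2) ≤
      max C 0 * B ^ ((r : ℝ) * exponent α r q κ + δ) :=
    (mul_le_mul_of_nonneg_right (le_max_left C 0) (by positivity)).trans
      (mul_le_mul_of_nonneg_left hB3 (le_max_right _ _))
  have h9 : ((G.rootSet ℂ).ncard : ℝ) ≤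
      (G.rootSet ℂ).ncard * B ^ ((r : ℝ) * exponent α r q κ + δ) :=
    le_mul_of_one_le_right (Nat.cast_nonneg _) hB2
  rw [add_mul]
  exact h3.trans (add_le_add (h2.trans h8) h9)

end Pool.Agent.Results.MP_44a246_nt.AllCurves
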