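import Pool.Agent.W603.DA.Mono

/-!
Height inequalities with the truncated counting function and the discriminant, over function
fields, for projective varieties given by forms with few monomials that are high powers, and
coordinate hyperplanes as boundary: the inequality holds outside a proper closed subset if and only
if no nontrivial diagonal one-parameter group preserves the variety.
-/

set_option autoImplicit false

namespace Pool.Agent.Results.MP_44a246_nt.ExactMonomialPairs

open FF MvPolynomial Pool.Agent.W603.LV Pool.Agent.W603.PV

/-- Let `F` be a function field of one variable over the algebraically closed field `k` of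
characteristic zero. Let `Fs i` be finitely many forms over `F` in `x_0, …, x_n` such that the
exponents of the `x_j`, `j ∉ U`, in the monomials of `Fs i` are multiples of some `N i`, at least
the square of the number of these monomials minus one. Let `X` be an irreducible component of the
projective variety `Fs i = 0` that lies in no coordinate hyperplane, with homogeneous prime ideal
`p`. Let `D` be the divisor `∏ x_j = 0`, `j ∈ U`, on `X`. Then the following are equivalent:
(1) only the trivial diagonal one-parameter groups preserve `X`;
(2) there are a proper closed subset `Z` of `X`, given by `G = 0` and containing `D`, and `B` such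
that for every finite set `S` of places of `F` there is a `C` with
`h(P) ≤ B (d_{L/F} + N_S^{(1)}(D, P)) + C` for every finite extension `L` of `F` and every point `P`
of `X` over `L` outside `Z`, where `h` is the height relative to `F` (here all terms are multiplied
by the degree of `L` over `F`), and `h(P) ≤ B N_S^{(1)}(D, P) + C` for the points over `F`;
(3) there is a proper closed subset `Z` of `X`, containing `D`, such that for every finite extension
`L` of `F` and every `M` the heights of the points of `X` over `L` outside `Z` that meet `D` at most
at `M` places of `L` are bounded. -/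
theorem result {k F : Type} [Field k] [IsAlgClosed k] [CharZero k] [Field F] [Algebra k F]
    [IsFF k F] {n : ℕ} {ι : Type} [Finite ι] (U : Finset (Fin (n + 1)))
    (Fs : ι → MvPolynomial (Fin (n + 1)) F) {e : ι → ℕ} (hF : ∀ i, (Fs i).IsHomogeneous (e i))
    (hC : ∀ i, HighPowers U (Fs i).support) (p : Ideal (MvPolynomial (Fin (n + 1)) F))
    (hmin : p ∈ (Ideal.span (Set.range Fs)).minimalPrimes) (hX : ∀ j, X j ∉ p) :
    List.TFAE [∀ b : Fin (n + 1) → ℤ, Stable p b → ∀ j l, b j = b l,
      ∃ (d : ℕ) (G : MvPolynomial (Fin (n + 1)) F), G.IsHomogeneous d ∧ G ∉ p ∧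
        (∏ j ∈ U, X j) ∣ G ∧ ∃ B : ℕ, ∀ S : Finset (Place k F), ∃ C : ℕ,
        (∀ (L : Type) [Field L] [Algebra k L] [Algebra F L] [IsScalarTower k F L]
        [FiniteDimensional F L] (f : Fin (n + 1) → L),
        (∀ H ∈ p, aeval f H = 0) → aeval f G ≠ 0 →
          pht k f ≤ B * (disc k F L + (trunc S (∏ j ∈ U, X j) U.card f).ncard) +
            C * Module.finrank F L) ∧
        ∀ f : Fin (n + 1) → F, (∀ H ∈ p, aeval f H = 0) → aeval f G ≠ 0 →
          pht k f ≤ B * (trunc S (∏ j ∈ U, X j) U.card f).ncard + C,
      ∃ (d : ℕ) (G : MvPolynomial (Fin (n + 1)) F), G.IsHomogeneous d ∧ G ∉ p ∧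
        (∏ j ∈ U, X j) ∣ G ∧
        ∀ (L : Type) [Field L] [Algebra k L] [Algebra F L] [IsScalarTower k F L]
        [FiniteDimensional F L] (M : ℕ), ∃ C : ℤ, ∀ f : Fin (n + 1) → L,
        (∀ H ∈ p, aeval f H = 0) → aeval f G ≠ 0 →
          (trunc (∅ : Finset (Place k F)) (∏ j ∈ U, X j) U.card f).ncard ≤ M → pht k f ≤ C] :=
  Pool.Agent.W603.DA.mono_tfae U Fs hF hC p hmin hX

end Pool.Agent.Results.MP_44a246_nt.ExactMonomialPairs
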