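import Pool.Agent.W603.DA.Main

/-!
Height inequalities with the truncated counting function and the discriminant, over function
fields, for projective varieties given by forms that are sums of few high powers of linear forms,
with any number of boundary divisors of the same kind: the inequality holds outside a proper closed
subset if and only if the variety is not covered by lines that meet the boundary in at most two
points.
-/

set_option autoImplicit false

namespace Pool.Agent.Results.MP_44a246_nt.ExactPowerSumPairs

open FF MvPolynomial Pool.Agent.W603.LV Pool.Agent.W603.PV Pool.Agent.W603.DA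

/-- Let `F` be a function field of one variable over the algebraically closed field `k` of
characteristic zero. Let `Fs i` be forms over `F` in `x_0, …, x_n`, each of which is a sum of `s`
terms `c ℓ ^ N` with `N ≥ (s - 1) ^ 2`, where `c` is a nonzero constant and `ℓ` is a linear form
over `F`. Let `X` be an irreducible component of the projective variety `Fs i = 0`, with homogeneous
prime ideal `p`. Let the boundary `D` of `X` be given by any finite number of forms `Q j` which do
not vanish on `X`, where `Q j` is a sum of `r` terms `c ℓ ^ (q j)` with `q j ≥ r ^ 2`. Then the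
following are equivalent:
(1) the generic point of `X` is on no line which lies in `X` and meets `D` in at most two points;
(2) there are a proper closed subset `Z` of `X`, given by `G = 0` and containing `D`, and `B` such
that for every finite set `S` of places of `F` there is a `C` with
`h(P) ≤ B (d_{L/F} + N_S^{(1)}(D, P)) + C` for every finite extension `L` of `F` and every point `P`
of `X` over `L` outside `Z`, where `h` is the height relative to `F` (here all terms are multiplied
by the degree of `L` over `F`), and `h(P) ≤ B N_S^{(1)}(D, P) + C` for the points over `F`;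
(3) there is a proper closed subset `Z` of `X`, containing `D`, such that for every finite extension
`L` of `F` and every `M` the heights of the points of `X` over `L` outside `Z` that meet `D` at most
at `M` places of `L` are bounded. -/
theorem result {k F : Type} [Field k] [IsAlgClosed k] [CharZero k] [Field F] [Algebra k F]
    [IsFF k F] {n : ℕ} {ι κ : Type} [Finite κ] (Fs : ι → MvPolynomial (Fin (n + 1)) F)
    (hF : ∀ i, ∃ s N : ℕ, 0 < N ∧ (s - 1) ^ 2 ≤ N ∧ IsPowSum (Fs i) s N)
    (Q : κ → MvPolynomial (Fin (n + 1)) F) (q : κ → ℕ)
    (hQ : ∀ j, ∃ r : ℕ, 0 < q j ∧ r ^ 2 ≤ q j ∧ IsPowSum (Q j) r (q j))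
    (p : Ideal (MvPolynomial (Fin (n + 1)) F)) [p.IsPrime]
    (hmin : p ∈ (Ideal.span (Set.range Fs)).minimalPrimes) (hx : ∃ j, X j ∉ p)
    (hQp : ∀ j, Q j ∉ p) :
    List.TFAE [¬ HasGmLine p Q,
      ∃ (d : ℕ) (G : MvPolynomial (Fin (n + 1)) F), G.IsHomogeneous d ∧ G ∉ p ∧
        (∀ j, Q j ∣ G) ∧ ∃ B : ℕ, ∀ S : Finset (Place k F), ∃ C : ℕ,
        (∀ (L : Type) [Field L] [Algebra k L] [Algebra F L] [IsScalarTower k F L]
        [FiniteDimensional F L] (f : Fin (n + 1) → L),
        (∀ H ∈ p, aeval f H = 0) → aeval f G ≠ 0 →
          pht k f ≤ B * (disc k F L + (truncAny S Q q f).ncard) + C * Module.finrank F L) ∧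
        ∀ f : Fin (n + 1) → F, (∀ H ∈ p, aeval f H = 0) → aeval f G ≠ 0 →
          pht k f ≤ B * (truncAny S Q q f).ncard + C,
      ∃ (d : ℕ) (G : MvPolynomial (Fin (n + 1)) F), G.IsHomogeneous d ∧ G ∉ p ∧
        (∀ j, Q j ∣ G) ∧ ∀ (L : Type) [Field L] [Algebra k L] [Algebra F L] [IsScalarTower k F L]
        [FiniteDimensional F L] (M : ℕ), ∃ C : ℤ, ∀ f : Fin (n + 1) → L,
        (∀ H ∈ p, aeval f H = 0) → aeval f G ≠ 0 →
          (truncAny (∅ : Finset (Place k F)) Q q f).ncard ≤ M → pht k f ≤ C] :=
  trunc_tfae Fs hF Q q hQ p hmin hx hQp

end Pool.Agent.Results.MP_44a246_nt.ExactPowerSumPairs
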