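import Mathlib
import Pool.Agent.W231.V.Main

set_option autoImplicit false

namespace Pool.Agent.Results.MP_44a246_nt.ExceptionalDegree

open NumberField IsDedekindDomain

/-- The local height at the prime `v` of the point with homogeneous coordinates `x`, relative to
the hyperplane `∑ j, l j * x j = 0`. -/
noncomputable def weil {K : Type} [Field K] [NumberField K] {n : ℕ}
    (v : HeightOneSpectrum (𝓞 K)) (l x : Fin (n + 1) → K) : ℝ :=
  Real.log ((⨆ j, FinitePlace.mk v (l j)) * (⨆ j, FinitePlace.mk v (x j)) /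
    FinitePlace.mk v (∑ j, l j * x j))

/-- The truncated counting function, relative to the sum of the hyperplanes
`∑ j, L i j * x j = 0`, of the `K`-rational point with homogeneous coordinates `x`: the sum of
`log N(v)` over the primes `v` outside `S` at which the local height is positive. -/
noncomputable def truncated {K : Type} [Field K] [NumberField K] {n r : ℕ}
    (S : Set (HeightOneSpectrum (𝓞 K))) (L : Fin r → Fin (n + 1) → K)
    (x : Fin (n + 1) → K) : ℝ :=
  ∑ᶠ v ∈ {v : HeightOneSpectrum (𝓞 K) | v ∉ S ∧ 0 < ∑ i, weil v (L i) x},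
    Real.log (Ideal.absNorm v.asIdeal : ℝ)

/-- Let `n ≥ 2` and let `D` be the sum of `r ≥ n + 2` hyperplanes of `ℙ^n` in general position over
a number field `K`, so that `h_{K_X + D} = (r - n - 1) h`. If the truncated Vojta inequality
`(r - n - 1) h(P) ≤ N_S^{(1)}(D, P) + ε h(P) + C` holds for all `P ∈ ℙ^n(K)` off `D` and off the
zero set of a nonzero form `G` (with coefficients in some extension of `K`), then `G` has degree at
least `∑_{2 ≤ b ≤ B} b φ(b)`, for every `B` with `ε B < 1`. -/
theorem result :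
    ∀ (K : Type) [Field K] [NumberField K] (S : Set (HeightOneSpectrum (𝓞 K))) (n r : ℕ),
      2 ≤ n → n + 2 ≤ r → ∀ L : Fin r → Fin (n + 1) → K,
      (∀ I : Finset (Fin r), I.card = n + 1 → LinearIndependent K (fun i : I => L i)) →
      ∀ (Ω : Type) [Field Ω] [Algebra K Ω] (G : MvPolynomial (Fin (n + 1)) Ω) (δ : ℕ),
        G ≠ 0 → G.IsHomogeneous δ → ∀ ε C : ℝ,
        (∀ x : Fin (n + 1) → K, (∀ i, ∑ j, L i j * x j ≠ 0) →
          MvPolynomial.eval (fun j => algebraMap K Ω (x j)) G ≠ 0 →
          ((r : ℝ) - n - 1) * Height.logHeight x ≤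
            truncated S L x + ε * Height.logHeight x + C) →
        ∀ B : ℕ, ε * B < 1 → ∑ b ∈ Finset.Icc 2 B, b * b.totient ≤ δ := by
  intro K _ _ S n r hn hr L hgp Ω _ _ G δ hG hGδ ε C hV B hB
  by_contra hlt
  push Not at hlt
  obtain ⟨x, hGx, hLx, hfin, hsum⟩ := Pool.Agent.W231.V.core hn L hgp
    (by rwa [Fintype.card_fin]) G hG hGδ B hlt hB (C + 1)
  rw [Fintype.card_fin] at hsum
  have hV' := hV x hLx hGx
  have hsub : ∀ v : HeightOneSpectrum (𝓞 K), 0 < ∑ i, weil v (L i) x →
      ∃ i, Pool.Agent.W231.V.fv v (∑ j, L i j * x j) <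
        (⨆ j, Pool.Agent.W231.V.fv v (L i j)) * ⨆ j, Pool.Agent.W231.V.fv v (x j) := by
    intro v hv
    by_contra hcon
    push Not at hcon
    refine absurd hv (not_lt.2 (Finset.sum_nonpos fun i _ => ?_))
    have h0 : 0 < FinitePlace.mk v (∑ j, L i j * x j) := FinitePlace.pos_iff.2 (hLx i)
    refine Real.log_nonpos ?_ ?_
    · refine div_nonneg (mul_nonneg ?_ ?_) h0.le
      · exact Real.iSup_nonneg fun j => apply_nonneg _ _
      · exact Real.iSup_nonneg fun j => apply_nonneg _ _
    · rw [div_le_one h0]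
      exact hcon i
  have hfin' : {v : HeightOneSpectrum (𝓞 K) | v ∉ S ∧ 0 < ∑ i, weil v (L i) x}.Finite :=
    hfin.subset fun v hv => hsub v hv.2
  have htr : truncated S L x = ∑ v ∈ hfin'.toFinset, Pool.Agent.W231.V.ell v := by
    unfold truncated
    rw [finsum_mem_eq_finite_toFinset_sum _ hfin']
    rfl
  have h1 := hsum hfin'.toFinset fun v hv => hsub v (hfin'.mem_toFinset.1 hv).2
  rw [← htr] at h1
  linarith

end Pool.Agent.Results.MP_44a246_nt.ExceptionalDegree
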